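import Pool.Agent.Run7.h22.Kse6

/-!
MP_0e7dfd_ag, Q1: the Kawaguchi–Silverman conjecture for the endomorphisms (invertible or not) which
commute with a group of automorphisms of maximal dynamical rank `dim V - 1`.
-/

set_option autoImplicit false

open Filter Topology
open Pool.Agent.Q8.KS Run7.h334.KSR Run7.h528.KB

namespace Pool.Agent.Results.MP_0e7dfd_ag.CommuteMaximalRank

variable {G : Type} [Group G]

/-- `g` commutes with the automorphisms `f_v`, on points and on classes. -/
structure Commutes {V : ProjVariety G} {r : ℕ} (Φ : LatticeAction V r)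
    (g : Morphism V.toVariety V.toVariety) : Prop where
  points : ∀ v x, g.pt ((Φ.f v).pt x) = (Φ.f v).pt (g.pt x)
  classes : ∀ v D, g.ns ((Φ.f v).ns D) = (Φ.f v).ns (g.ns D)

/-- Let `V` be a projective variety of dimension `m = dimPred + 1 ≥ 2` over a number field `K` with
absolute Galois group `G`, let `ℤ^(m-1)` act on `V` by automorphisms `f_v` over `K` such that
`d₁(f_v) > 1` for all `v ≠ 0` (so the group has maximal dynamical rank), and let `u` be a height of
an ample class `A`. Let `g : V → V` be an endomorphism over `K`, invertible or not, which commutes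
with all `f_v`, with `d₁(g) > 1` (for `d₁(g) = 1` there is nothing to prove).

(1) There is a proper closed subset `Z` of `V`, invariant under the group, such that every point `x`
outside of `Z` has a finite orbit under the group or satisfies `a_g(x) = d₁(g)` and
`a_(f_v)(x) = d₁(f_v)` for all `v`; and outside of `Z` there are only finitely many points `x` with
`[K(x) : K] ≤ N` and `a_g(x) ≠ d₁(g)`, for every `N`.

(2) The Kawaguchi–Silverman conjecture holds for `g`: if the forward orbit of `x` under `g` is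
Zariski dense then `a_g(x) = d₁(g)`. (Here it is used that `V` is irreducible and that the fixed
points of an automorphism form a closed subset, `ClosedFixedPoints`.) -/
theorem result (V : ProjVariety G) (hm : 0 < V.dimPred)
    (Φ : LatticeAction V V.dimPred) (A : V.Pic) (hA : V.IsAmple A) (u : V.Pt → ℝ)
    (hu : V.IsHeight A u)
    (hpos : ∀ v : Fin V.dimPred → ℤ, v ≠ 0 → ∃ d, 1 < d ∧ IsDynamicalDegree (Φ.f v) A d)
    (g : Morphism V.toVariety V.toVariety) (hg : Commutes Φ g) (d₁ : ℝ) (hd₁ : 1 < d₁)
    (hdyn : IsDynamicalDegree g A d₁) :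
    (∃ Z : Set V.Pt, IsClosed Z ∧ Z ≠ Set.univ ∧ (∀ v x, (Φ.f v).pt x ∈ Z ↔ x ∈ Z) ∧
      (∀ x, x ∉ Z → (Set.range fun v => (Φ.f v).pt x).Finite ∨
        (IsArithmeticDegree g u x d₁ ∧
          ∀ v d, IsDynamicalDegree (Φ.f v) A d → IsArithmeticDegree (Φ.f v) u x d)) ∧
      ∀ N : ℕ, {x | x ∉ Z ∧ (MulAction.orbit G x).ncard ≤ N ∧
        ¬ IsArithmeticDegree g u x d₁}.Finite) ∧
    (ClosedFixedPoints Φ → PreirreducibleSpace V.Pt → ∀ x,
      Dense (Set.range fun n : ℕ => g.pt^[n] x) → IsArithmeticDegree g u x d₁) := by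
  refine ⟨?_, fun hfix hirr x hx => Run7.h22.Kse.dense_max hm Φ hA hu hpos g hg.points
    hg.classes hd₁ hdyn hfix hirr hx⟩
  obtain ⟨Z, h₁, hZ, hZ', hinv, -, harith, hdich, hfin⟩ :=
    Run7.h22.Kse.main_g hm Φ hA hu hpos g hg.points hg.classes hd₁ hdyn
  refine ⟨Z, hZ, hZ', hinv, fun x hx => ?_, fun N => ?_⟩
  · rcases hdich x hx with h | ⟨h, h'⟩
    · exact Or.inl h
    · exact Or.inr ⟨harith x h', h⟩
  · refine (hfin N).subset ?_
    rintro x ⟨hx, hxN, hxa⟩
    refine ⟨hx, hxN, ?_⟩
    rcases hdich x hx with h | ⟨-, h'⟩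
    · exact h
    · exact absurd (harith x h') hxa

end Pool.Agent.Results.MP_0e7dfd_ag.CommuteMaximalRank
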