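import Pool.Agent.Run7.h22.Kse3

/-!
MP_0e7dfd_ag, Q1: the Kawaguchi–Silverman conjecture, and the arithmetic degrees of all points, for
the endomorphisms (invertible or not) which commute with a group of automorphisms of rank `ρ - k`
with `k` invariant blocks of divisor classes.
-/

set_option autoImplicit false

open Filter Topology
open Pool.Agent.Q8.KS Run7.h334.KSR Run7.h528.KB

namespace Pool.Agent.Results.MP_0e7dfd_ag.CommutingEndomorphisms

variable {G : Type} [Group G]

/-- `g` is a surjective morphism `V → V` over `K` which commutes with the automorphisms `f_v`, on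
points and on classes, and the pullback of an integral class is integral (a standard fact). -/
structure Commutes {V : ProjVariety G} {r : ℕ} (Φ : LatticeAction V r)
    (g : Morphism V.toVariety V.toVariety) : Prop where
  surjective : Function.Surjective g.pt
  points : ∀ v x, g.pt ((Φ.f v).pt x) = (Φ.f v).pt (g.pt x)
  classes : ∀ v D, g.ns ((Φ.f v).ns D) = (Φ.f v).ns (g.ns D)
  lattice : PreservesLattice V.lattice g

/-- The growth of the heights in the orbit of the point `x` under `g` is that of the class
`e_s = ∑ e_i`, `i` in `s`. -/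
structure HasGrowth {V : ProjVariety G} {k : ℕ} (g : Morphism V.toVariety V.toVariety)
    (A : V.Pic) (u : V.Pt → ℝ) (e : Fin k → V.NS) (x : V.Pt) (s : Finset (Fin k)) : Prop where
  /-- if `s` is empty then the orbit of `x` under `g` is finite -/
  finite : s = ∅ → (Set.range fun n : ℕ => g.pt^[n] x).Finite
  /-- and `a_g(x) = 1` -/
  degree_one : s = ∅ → IsArithmeticDegree g u x 1
  /-- if `s` is not empty then `a_g(x) = max (1, d)` for the growth rate `d` of `e_s` under `g^*` -/
  degree : s.Nonempty → ∃ d, IsGrowthRate g A (∑ i ∈ s, e i) d ∧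
    IsArithmeticDegree g u x (max 1 d)
  /-- if `s` contains all `i` then `a_g(x) = d₁(g)` -/
  full : s = Finset.univ → ∀ d, IsDynamicalDegree g A d → IsArithmeticDegree g u x d

/-- `g` is int-amplified: `g^* L - L` is ample for some ample `L`. -/
def IsIntAmplified {V : ProjVariety G} (g : Morphism V.toVariety V.toVariety) : Prop :=
  ∃ L : V.Pic, V.IsAmple L ∧ g.ns (V.cls L) - V.cls L ∈ interior V.Nef

/-- Let `V` be a projective variety over a number field `K` with absolute Galois group `G`, let
`ℤ ^ r`, `r ≥ 1`, act on `V` by automorphisms `f_v` over `K` such that `d₁(f_v) > 1` for all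
`v ≠ 0`, and let `u` be a height of an ample class `A`. Let `ρ` be the Picard number of `V`, and
suppose that `N¹(V)` contains with finite index a direct sum `Λ_1 ⊕ … ⊕ Λ_k` of groups of rank at
least `2` such that `f_v^*` maps each `Λ_i` into itself, and that `r = ρ - k` (`InvariantBlocks`). For
`k = 1`, `ρ = 2` this is one automorphism with `d₁ > 1` of a variety with Picard number two.

Let `g : V → V` be a surjective endomorphism over `K`, invertible or not, which commutes with all
`f_v` (`Commutes`); nothing is assumed about `g^*` on the groups `Λ_i`.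

(1) There are nef classes `e_1, …, e_k`, `e_i` being a nonzero element of `Λ_i ⊗ ℝ`, with ample sum
(`BlockClasses`), such that for every point `x` there is a set `s` of indices which describes the
orbit of `x` under the group (`HasSupport`) and under `g` (`HasGrowth`): if `s` is empty then both
orbits are finite; if `s` is not empty then `a_g(x)` is the maximum of `1` and the growth rate of
the class `e_s = ∑ e_i` (`i` in `s`) under `g^*`; if `s` contains all `i` then `a_g(x) = d₁(g)`; if it
does not then `f_w(x) = x` for some `w ≠ 0`.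

(2) The dynamical degree `d₁(g)` exists and is at least `1`. If `g` is int-amplified then the
points with a finite orbit under `g` are the points with a finite orbit under the group.

(3) The Kawaguchi–Silverman conjecture holds for `g`: if the forward orbit of `x` under `g` is
Zariski dense then `a_g(x) = d₁(g)`. (Here it is used that the fixed points of an automorphism form
a closed subset, `ClosedFixedPoints`.) -/
theorem result (V : ProjVariety G) {r k ρ : ℕ} (hr : 0 < r) (Φ : LatticeAction V r) (A : V.Pic)
    (hA : V.IsAmple A) (u : V.Pt → ℝ) (hu : V.IsHeight A u)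
    (hpos : ∀ v : Fin r → ℤ, v ≠ 0 → ∃ d, 1 < d ∧ IsDynamicalDegree (Φ.f v) A d)
    (U : Module.Basis (Fin ρ) ℝ V.NS) (β : Fin ρ → Fin k) (hU : InvariantBlocks Φ U β)
    (g : Morphism V.toVariety V.toVariety) (hg : Commutes Φ g) :
    (∃ e : Fin k → V.NS, BlockClasses U β e ∧
      ∀ x, ∃ s, HasSupport Φ A u e x s ∧ HasGrowth g A u e x s) ∧
    ((∃ d, 1 ≤ d ∧ IsDynamicalDegree g A d) ∧
      (IsIntAmplified g → ∀ x, (Set.range fun n : ℕ => g.pt^[n] x).Finite ↔
        (Set.range fun v => (Φ.f v).pt x).Finite)) ∧
    (ClosedFixedPoints Φ → ∀ x, Dense (Set.range fun n : ℕ => g.pt^[n] x) →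
      ∀ d, IsDynamicalDegree g A d → IsArithmeticDegree g u x d) := by
  have hinj := g.injective hg.surjective
  obtain ⟨e, h1, h2, h3, h4, h5⟩ := Run7.h22.Kse.final_g hr Φ hA hu hpos U hU.two hU.dim
    hU.invariant g hinj hg.points hg.classes hg.lattice
  refine ⟨⟨e, ⟨fun i => (h1 i).1, fun i => (h1 i).2.1, fun i => (h1 i).2.2, h2⟩, fun x => ?_⟩,
    ⟨h4, ?_⟩, fun hfix x hx d hd => Run7.h22.Kse.dense_g hr Φ hA hu hpos U hU.two hU.dim
      hU.invariant g hinj hg.points hg.classes hg.lattice hfix hx d hd⟩
  · obtain ⟨s, a1, a2, a3, a4, a5, a6, a7, a8, a9, a10⟩ := h3 x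
    exact ⟨s, ⟨a1, a2, a3, a4, a5, a6, a7⟩, ⟨fun h => (a8 h).1, fun h => (a8 h).2, a9, a10⟩⟩
  · rintro ⟨L, hL, hgL⟩ x
    refine ⟨h5 L hL hgL x, fun h => ?_⟩
    obtain ⟨s, a1, a2, a3, a4, a5, a6, a7, a8, -⟩ := h3 x
    exact (a8 (a1.2 h)).1

end Pool.Agent.Results.MP_0e7dfd_ag.CommutingEndomorphisms
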