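import Pool.Agent.Run7.h528.KB.Final

/-!
MP_0e7dfd_ag, Q1: the Kawaguchi–Silverman conjecture, and the arithmetic degrees of all points, for
abelian groups of automorphisms of rank `ρ - k` with `k` invariant blocks of divisor classes.
-/

set_option autoImplicit false

open Filter Topology
open Pool.Agent.Q8.KS Run7.h334.KSR Run7.h528.KB

/-- Let `V` be a projective variety of dimension `m ≥ 1` over a number field `K` with absolute Galois
group `G`, let `ℤ ^ r`, `r ≥ 1`, act on `V` by automorphisms `f_v` over `K` such that `d₁(f_v) > 1`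
for all `v ≠ 0`, and let `u` be a height of an ample class `A`. Let `ρ` be the Picard number of `V`,
and suppose that `N¹(V)` contains with finite index a direct sum `Λ_1 ⊕ … ⊕ Λ_k` of groups of rank at
least `2` such that `f_v^*` maps each `Λ_i` into itself, and that `r = ρ - k` (`InvariantBlocks`; the
classes `U j` are a basis of the sum, and `U j` is in `Λ_i` for `i = β j`). For `k = 1` the condition
is `r = ρ - 1`.

(1) There are nef classes `e_1, …, e_k`, `e_i` being a nonzero element of `Λ_i ⊗ ℝ`, with ample sum
(`BlockClasses`), such that for every point `x` there is a set `s` of indices with the following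
properties (`HasSupport`), for `e_s = ∑ e_i` (`i` in `s`):

* `s` is empty if and only if the orbit of `x` under the group is finite, and then
  `a_(f_v)(x) = 1` for all `v`;
* if `s` is not empty, then `a_(f_v)(x)` is the growth rate of the class `e_s` under `f_v^*`, for
  all `v`: the limit of `((f_v^n)^* e_s ⋅ A^(m-1))^(1/n)`;
* the stabilizer of `x` is contained in the group of the `w` with `f_w^* e_i = e_i` for all `i` in
  `s`, and it has finite index in this group: the orbit of `x` under this group is finite;
* if `s` does not contain all `i` then `f_w(x) = x` for some `w ≠ 0`;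
* if `s` contains all `i`, then `a_(f_v)(x) = d₁(f_v)` for all `v`.

(2) For every `N` there are only finitely many points `x` with `[K(x) : K] ≤ N` and a finite orbit
under the group.

(3) The Kawaguchi–Silverman conjecture holds for all `f_v`: if the orbit of `x` under the group is
Zariski dense, in particular if the forward orbit of `x` under some `f_w` is Zariski dense, then
`a_(f_v)(x) = d₁(f_v)` for all `v`. (Here it is used that the fixed points of an automorphism form a
closed subset, `ClosedFixedPoints`.) -/
theorem Pool.Agent.Results.MP_0e7dfd_ag.InvariantBlocks.result {G : Type} [Group G]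
    (V : ProjVariety G) {r k ρ : ℕ} (hr : 0 < r) (Φ : LatticeAction V r) (A : V.Pic)
    (hA : V.IsAmple A) (u : V.Pt → ℝ) (hu : V.IsHeight A u)
    (hpos : ∀ v : Fin r → ℤ, v ≠ 0 → ∃ d, 1 < d ∧ IsDynamicalDegree (Φ.f v) A d)
    (U : Module.Basis (Fin ρ) ℝ V.NS) (β : Fin ρ → Fin k) (hU : InvariantBlocks Φ U β) :
    (∃ e : Fin k → V.NS, BlockClasses U β e ∧ ∀ x, ∃ s, HasSupport Φ A u e x s) ∧
    (∀ N : ℕ, {x | (MulAction.orbit G x).ncard ≤ N ∧
      (Set.range fun v => (Φ.f v).pt x).Finite}.Finite) ∧
    (ClosedFixedPoints Φ → ∀ x, HasDenseOrbit Φ x →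
      ∀ v d, IsDynamicalDegree (Φ.f v) A d → IsArithmeticDegree (Φ.f v) u x d) := by
  refine ⟨?_, ?_, fun hfix x hx v d hd =>
    dense hr Φ hA hu hpos U hU.two hU.dim hU.invariant hfix hx v d hd⟩
  · obtain ⟨e, h1, h2, h3, -⟩ := final hr Φ hA hu hpos U hU.two hU.dim hU.invariant
    refine ⟨e, ⟨fun i => (h1 i).1, fun i => (h1 i).2.1, fun i => (h1 i).2.2, h2⟩, fun x => ?_⟩
    obtain ⟨s, a1, a2, a3, a4, a5, a6, a7⟩ := h3 x
    exact ⟨s, a1, a2, a3, a4, a5, a6, a7⟩
  · obtain ⟨-, -, -, -, h4⟩ := final hr Φ hA hu hpos U hU.two hU.dim hU.invariant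
    exact h4
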