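import Mathlib
import Pool.Agent.Run7.h334.KSR.Main

/-!
MP_0e7dfd_ag, Q1: the Kawaguchi–Silverman conjecture for groups of automorphisms of maximal
dynamical rank.
-/

set_option autoImplicit false

open Filter Topology

namespace Pool.Agent.Results.MP_0e7dfd_ag.MaximalRankGroups

open Pool.Agent.Q8.KS Run7.h334.KSR

/-- Let `V` be a projective variety of dimension `m = dimPred + 1 ≥ 2` over a number field `K` with
absolute Galois group `G`, let `ℤ^(m-1)` act on `V` by automorphisms `f v` over `K`, such that
`d₁(f v) > 1` for all `v ≠ 0` (so the group has maximal dynamical rank), and let `u` be a height of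
an ample class `A`.

(1) There is a proper closed invariant subset `Z` of `V` such that every point `x` outside of `Z`
has a finite orbit under the group or satisfies `α_(f v)(x) = d₁(f v)` for all `v`; and outside of
`Z` there are only finitely many points `x` with `[K(x) : K] ≤ e` which have a finite orbit or
satisfy `α_(f v)(x) ≠ d₁(f v)` for some `v`, for every `e`.

(2) If the orbit of `x` under the group is Zariski dense, in particular if the forward orbit of
`x` under some `f w` is Zariski dense, then `α_(f v)(x) = d₁(f v)` for all `v`. -/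
theorem result {G : Type} [Group G] (V : ProjVariety G) (hm : 0 < V.dimPred)
    (Φ : LatticeAction V V.dimPred) (A : V.Pic) (hA : V.IsAmple A) (u : V.Pt → ℝ)
    (hu : V.IsHeight A u)
    (hpos : ∀ v : Fin V.dimPred → ℤ, v ≠ 0 → ∃ d, 1 < d ∧ IsDynamicalDegree (Φ.f v) A d) :
    (∃ Z : Set V.Pt, IsClosed Z ∧ Z ≠ Set.univ ∧ (∀ v x, (Φ.f v).pt x ∈ Z ↔ x ∈ Z) ∧
      (∀ x, x ∉ Z → (Set.range fun v => (Φ.f v).pt x).Finite ∨
        ∀ v d, IsDynamicalDegree (Φ.f v) A d → IsArithmeticDegree (Φ.f v) u x d) ∧
      ∀ e : ℕ, {x | x ∉ Z ∧ (MulAction.orbit G x).ncard ≤ e ∧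
        ((Set.range fun v => (Φ.f v).pt x).Finite ∨
          ∃ v d, IsDynamicalDegree (Φ.f v) A d ∧
            ¬ IsArithmeticDegree (Φ.f v) u x d)}.Finite) ∧
    (∀ x, (Dense (Set.range fun v => (Φ.f v).pt x) ∨
        ∃ w, Dense (Set.range fun k : ℕ => (Φ.f w).pt^[k] x)) →
      ∀ v d, IsDynamicalDegree (Φ.f v) A d → IsArithmeticDegree (Φ.f v) u x d) := by
  obtain ⟨Z, hZ, hZ', hinv, h1, h2⟩ := main hm Φ hA hu hpos
  refine ⟨⟨Z, hZ, hZ', hinv, h1, fun e => (h2 e).subset ?_⟩, ?_⟩
  · rintro x ⟨hx, hxe, hx2⟩
    refine ⟨hx, hxe, ?_⟩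
    rcases hx2 with h | ⟨v, d, hd, hn⟩
    · exact h
    · rcases h1 x hx with h | h
      · exact h
      · exact absurd (h v d hd) hn
  · intro x hx
    have hdense : Dense (Set.range fun v => (Φ.f v).pt x) := by
      rcases hx with h | ⟨w, h⟩
      · exact h
      · refine h.mono ?_
        rintro _ ⟨k, rfl⟩
        refine ⟨k • w, ?_⟩
        induction k with
        | zero => simp [Φ.pt_zero]
        | succ k ih =>
          simp only at ih ⊢
          rw [Function.iterate_succ_apply', ← ih, ← Φ.pt_add, succ_nsmul, add_comm]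
    have hxZ : x ∉ Z := by
      intro hxZ
      apply hZ'
      have h3 : (Set.range fun v => (Φ.f v).pt x) ⊆ Z := by
        rintro _ ⟨v, rfl⟩
        exact (hinv v x).2 hxZ
      have h4 := closure_minimal h3 hZ
      rw [hdense.closure_eq] at h4
      exact Set.eq_univ_of_univ_subset h4
    rcases h1 x hxZ with h | h
    · exfalso
      have h3 : (Set.univ : Set V.Pt).Finite := by
        have h4 := h.isClosed.closure_eq
        rw [hdense.closure_eq] at h4
        rw [h4]
        exact h
      exact Set.infinite_univ h3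
    · exact h

end Pool.Agent.Results.MP_0e7dfd_ag.MaximalRankGroups
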